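import Pool.Agent.Helper13.TW.StF

/-!
# Project TW, module FN3: manifold points, assembly
-/

set_option autoImplicit false

namespace Pool.Agent.Helper76.TW

open Set Topology Pool.Agent.Helper13.TR Pool.Agent.Helper13.TW

/-- one-dimensional cycles bound locally in an open subspace -/
private theorem lh1_open (hPSH : StPSH) {X : Type} [TopologicalSpace X] (U : Set X)
    (hU : IsOpen U) (h : LH1 X) : LH1 ↥U := by
  intro w O hO hwO
  have hi : IsEmbedding (Subtype.val : ↥U → X) := IsEmbedding.subtypeVal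
  have hio : IsOpen (Subtype.val '' O : Set X) := hU.isOpenMap_subtype_val O hO
  obtain ⟨V', hV', hwV', hV'O, hb⟩ := h w (Subtype.val '' O) hio ⟨w, hwO, rfl⟩
  obtain ⟨p1, -, p3, p4, p5, -⟩ := hPSH ↥U X X ⟨Subtype.val, continuous_subtype_val⟩
    (ContinuousMap.id X)
  refine ⟨Subtype.val ⁻¹' V', hV'.preimage continuous_subtype_val, hwV', ?_, ?_⟩
  · intro y hy
    obtain ⟨y', hy', he⟩ := hV'O hy
    rwa [← Subtype.val_injective he]
  · intro z hz hbz
    have h1 : bd 0 (push ⟨Subtype.val, continuous_subtype_val⟩ 1 z) = (0 : Ch X 0) := by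
      rw [p1 0 z, hbz, map_zero]
    obtain ⟨e, he, hbe⟩ := hb _ (p3 V' 1 z hz) h1
    obtain ⟨e', he', hpe⟩ := p5 hi O 2 e he
    refine ⟨e', he', ?_⟩
    apply p4 Subtype.val_injective 1
    rw [← p1 1 e', hpe, hbe]

theorem hFN3 (hFN1 : StFN1) (hOPN : StOPN) (hHOM : StHOM) (hTR1 : StTR1) (hDSC : StDSC)
    (hFIN2 : StFIN2) (hPSH : StPSH) (_hMON : StMON) : StFN3 := by
  intro X Y _ _ _ _ _ _ hHM hLH hY x N hN j hj
  let _ := TopologicalSpace.metrizableSpaceMetric X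
  obtain ⟨U, hU, hxU, A, instA, ⟨φ⟩⟩ := hFN1 X Y hHM hY x N hN j hj
  have hHU : HM ↥U := hOPN X U hU hHM
  have hlpU : LocallyPathConnectedSpace ↥U := hU.locallyPathConnectedSpace
  have hemb : IsEmbedding (fun a : A => φ.symm ((0 : ℝ), a)) :=
    φ.symm.isEmbedding.comp (isEmbedding_prodMkRight (0 : ℝ))
  have hmA : TopologicalSpace.MetrizableSpace A := hemb.metrizableSpace
  obtain ⟨t1, t2⟩ := hTR1 ↥U A φ
  have hLA : LH1 A := t1 (lh1_open hPSH U hU hLH)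
  have hlA : LocallyPathConnectedSpace A := t2 hlpU
  have hHA : HM (ℝ × A) := hHOM ↥U (ℝ × A) ⟨φ⟩ hHU
  have hH2 : HM2 A := hDSC A hHA
  obtain ⟨U2, hU2, haU2, g, hg⟩ := hFIN2 A hH2 hLA (φ ⟨x, hxU⟩).2
  -- the open set
  have hk : IsOpenEmbedding (fun q : ℝ × ↥U2 => ((φ.symm (q.1, (q.2 : A)) : ↥U) : X)) := by
    have k1 : IsOpenEmbedding (Prod.map id Subtype.val : ℝ × ↥U2 → ℝ × A) :=
      IsOpenEmbedding.id.prodMap hU2.isOpenEmbedding_subtypeVal
    exact hU.isOpenEmbedding_subtypeVal.comp (φ.symm.isOpenEmbedding.comp k1)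
  refine ⟨range (fun q : ℝ × ↥U2 => ((φ.symm (q.1, (q.2 : A)) : ↥U) : X)), hk.isOpen_range, ?_, ?_⟩
  · refine ⟨((φ ⟨x, hxU⟩).1, ⟨(φ ⟨x, hxU⟩).2, haU2⟩), ?_⟩
    show ((φ.symm (φ ⟨x, hxU⟩) : ↥U) : X) = x
    rw [Homeomorph.symm_apply_apply]
  · refine ⟨Prod.map id (Complex.equivRealProdCLM.toHomeomorph ∘ g) ∘
      hk.isEmbedding.toHomeomorph.symm, ?_⟩
    have k2 : IsOpenEmbedding (Prod.map id (Complex.equivRealProdCLM.toHomeomorph ∘ g) :
        ℝ × ↥U2 → ℝ × ℝ × ℝ) :=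
      IsOpenEmbedding.id.prodMap (Complex.equivRealProdCLM.toHomeomorph.isOpenEmbedding.comp hg)
    exact k2.comp hk.isEmbedding.toHomeomorph.symm.isOpenEmbedding

end Pool.Agent.Helper76.TW
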