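import Pool.Agent.Helper13.TW.StD

/-!
# Project TW, module JIN: points not separated by one component
-/

set_option autoImplicit false

namespace Pool.Agent.Helper76.TW

open Set Topology Pool.Agent.Helper13.TR Pool.Agent.Helper13.TW

private theorem joined_seg {S : Type} [TopologicalSpace S] {F : Set S} {g : ℝ → S} (hg : Continuous g)
    {a b : ℝ} (hab : a ≤ b) (h : ∀ t ∈ Icc a b, g t ∈ F) : JoinedIn F (g a) (g b) := by
  apply JoinedIn.ofLine (f := fun t => g (a + t * (b - a)))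
  · exact (hg.comp (by fun_prop)).continuousOn
  · simp
  · simp
  · rintro _ ⟨t, ht, rfl⟩
    apply h
    have h1 := ht.1
    have h2 := ht.2
    constructor
    · nlinarith
    · nlinarith

private theorem not_mem_of_ins {S : Type} [TopologicalSpace S] {ω : S → Ch S 2 → ℤ} {J : Set S} {x : S}
    (h : x ∈ Ins ω J) : x ∉ J := h.1

/-- one step: two points joined in `Ins J ∖ (K ∖ C)` on the same side of the crosscut `P`, `C = P ∖ {p, q}`,
are joined in `Ins J ∖ P` and in `Ins J ∖ (K ∖ C)`. -/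
private theorem step (hTWO : StTWO) (hCLS : StCLS) (hTHE : StTHE) (hLIN : StLIN) (hOPN2 : StOPN2)
    (hLCO : StLCO) (hARB : StARB) (S : Type) [MetricSpace S] [LocallyPathConnectedSpace S]
    [PathConnectedSpace S] (ω : S → Ch S 2 → ℤ) (V : Set S) (hG : GR S ω V) (J : Set S) (hJ : Cel ω V J)
    (p q : S) (D₁ D₂ P : Set S) (hs : Spl J p q D₁ D₂) (hc : Crs ω J p q P) (W₁ : Set S)
    (hW : IsOpen W₁) (hWJ : W₁ ⊆ Ins ω J) (hPW : P \ {p, q} ⊆ W₁) (x x' : S) (hx : x ∉ P) (hx' : x' ∉ P)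
    (hj : JoinedIn W₁ x x') (hss : x ∈ Ins ω (D₁ ∪ P) ↔ x' ∈ Ins ω (D₁ ∪ P)) :
    JoinedIn (W₁ \ P) x x' := by
  obtain ⟨hC1, hC2, hdis, hun, -⟩ := hTHE S ω V hG J hJ p q D₁ D₂ P hs hc
  obtain ⟨hPa, hPJ, hPI⟩ := hc
  have hpJ : p ∈ J := by
    have : p ∈ P ∩ J := by rw [hPJ]; simp
    exact this.2
  have hqJ : q ∈ J := by
    have : q ∈ P ∩ J := by rw [hPJ]; simp
    exact this.2
  have hpW : p ∉ W₁ := fun h => not_mem_of_ins (hWJ h) hpJ
  have hqW : q ∉ W₁ := fun h => not_mem_of_ins (hWJ h) hqJ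
  obtain ⟨ψ, hψ, hψr⟩ := hLIN.1 S P W₁ p q hPa hPW hpW hqW
  have hlpc : LocallyPathConnectedSpace ↥W₁ := hW.locallyPathConnectedSpace
  have hws := hOPN2 S ω W₁ hG.ws hW
  have hd1J : D₁ ⊆ J := by
    rw [← hs.2.2.2]
    exact subset_union_left
  have hav : W₁ \ P ⊆ (D₁ ∪ P)ᶜ := by
    rintro z ⟨hz1, hz2⟩ (hz3 | hz3)
    · exact not_mem_of_ins (hWJ hz1) (hd1J hz3)
    · exact hz2 hz3
  have hT4 := (hTWO S ω V hG (D₁ ∪ P) hC1.1).2.2.2.1
  have hmap : ∀ a b : ↥W₁, JoinedIn (range ψ)ᶜ a b → JoinedIn (W₁ \ P) (a : S) (b : S) := by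
    intro a b hab
    have h1 := hab.map (f := (Subtype.val : ↥W₁ → S)) continuous_subtype_val
    refine h1.mono ?_
    rintro _ ⟨z, hz, rfl⟩
    refine ⟨z.2, fun h => hz ?_⟩
    rw [hψr]
    exact h
  have hsat : ∀ a b : ↥W₁, JoinedIn (range ψ)ᶜ a b →
      (a ∈ (Subtype.val ⁻¹' Ins ω (D₁ ∪ P) : Set ↥W₁) ↔ b ∈ (Subtype.val ⁻¹' Ins ω (D₁ ∪ P) : Set ↥W₁)) :=
    fun a b hab => hT4 _ _ ((hmap a b hab).mono hav)
  -- both sides near a point of the crosscut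
  have hex : ∃ a b : ↥W₁, a ∉ range ψ ∧ b ∉ range ψ ∧ a ∈ (Subtype.val ⁻¹' Ins ω (D₁ ∪ P) : Set ↥W₁) ∧
      b ∉ (Subtype.val ⁻¹' Ins ω (D₁ ∪ P) : Set ↥W₁) ∧ Joined a b := by
    obtain ⟨c, hc⟩ := (hARB.1 S P p q hPa).2.2.2.2.2.2.2.2.1.nonempty
    obtain ⟨U, hU, hUW⟩ := (path_connected_basis c).mem_iff.1 (hW.mem_nhds (hPW hc))
    obtain ⟨hUn, hUp⟩ := hU
    simp only [id] at hUW
    have c1 := (hCLS S ω V hG (D₁ ∪ P) hC1.1).1 (Or.inr hc.1)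
    have c2 := (hCLS S ω V hG (D₂ ∪ P) hC2.1).1 (Or.inr hc.1)
    obtain ⟨a, ha1, ha2⟩ := mem_closure_iff_nhds.1 c1 U hUn
    obtain ⟨b, hb1, hb2⟩ := mem_closure_iff_nhds.1 c2 U hUn
    refine ⟨⟨a, hUW ha1⟩, ⟨b, hUW hb1⟩, ?_, ?_, ha2, ?_, ?_⟩
    · rw [hψr]
      exact fun h => not_mem_of_ins ha2 (Or.inr h)
    · rw [hψr]
      exact fun h => not_mem_of_ins hb2 (Or.inr h)
    · intro h
      have : b ∈ Ins ω (D₁ ∪ P) ∩ Ins ω (D₂ ∪ P) := ⟨h, hb2⟩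
      rw [hdis] at this
      exact this
    · exact ((hUp.joinedIn a ha1 b hb1).mono hUW).joined_subtype
  have hfin := hLCO ↥W₁ _ hws ψ hψ _ hsat hex ⟨x, hj.source_mem⟩ ⟨x', hj.target_mem⟩
    (by rw [hψr]; exact hx) (by rw [hψr]; exact hx') hj.joined_subtype hss
  exact hmap _ _ hfin

theorem hJIN (hCMP : StCMP) (hTWO : StTWO) (hCLS : StCLS) (hTHE : StTHE) (hLIN : StLIN)
    (hOPN2 : StOPN2) (hLCO : StLCO) (hSCL : StSCL) (hARB : StARB) : StJIN := by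
  intro S _ _ _ ω V hG J hJ K hK hr x hx y hy hside
  obtain ⟨⟨hIo, hIp⟩, -, -, -⟩ := hTWO S ω V hG J hJ.1
  obtain ⟨hcm1, hcm2, -⟩ := hCMP S ω V hG J hJ.1 K hK hr
  obtain ⟨γ, hγ⟩ := hIp.joinedIn x hx.1 y hy.1
  obtain ⟨g, hgdef⟩ : ∃ g : ℝ → S, g = fun t => γ.extend t := ⟨_, rfl⟩
  have hg : Continuous g := by
    rw [hgdef]
    exact γ.extend.continuous
  have hgI : ∀ t, g t ∈ Ins ω J := by
    intro t
    have : g t ∈ range γ := by
      rw [← γ.extend_range, hgdef]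
      exact ⟨t, rfl⟩
    obtain ⟨s, hs⟩ := this
    rw [← hs]
    exact hγ s
  have hg0 : g 0 = x := by rw [hgdef]; exact γ.extend_zero
  have hg1 : g 1 = y := by rw [hgdef]; exact γ.extend_one
  let cc : S → Set S := fun z => connectedComponentIn (K ∩ Ins ω J) z
  have hfin : ∀ a : ℝ, {C : Set S | ∃ z ∈ K ∩ g '' Icc a 1, C = cc z}.Finite := by
    intro a
    apply hcm2
    · exact isCompact_Icc.image hg
    · rintro _ ⟨t, -, rfl⟩
      exact hgI t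
  suffices h : ∀ n : ℕ, ∀ a : ℝ, a ≤ 1 → g a ∉ K → {C : Set S | ∃ z ∈ K ∩ g '' Icc a 1, C = cc z}.ncard ≤ n →
      (∀ (p q : S) (D₁ D₂ P : Set S), Spl J p q D₁ D₂ → Crs ω J p q P → P ⊆ K →
        (g a ∈ Ins ω (D₁ ∪ P) ↔ y ∈ Ins ω (D₁ ∪ P))) → JoinedIn (Ins ω J \ K) (g a) y by
    have := h _ 0 zero_le_one (by rw [hg0]; exact hx.2) le_rfl (by rw [hg0]; exact hside)
    rwa [hg0] at this
  intro n
  induction n with
  | zero =>
    intro a ha haK hn _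
    have h0 := (Set.ncard_eq_zero (hfin a)).1 (Nat.le_zero.1 hn)
    rw [← hg1]
    apply joined_seg hg ha
    intro t ht
    refine ⟨hgI t, fun hK' => ?_⟩
    have : cc (g t) ∈ {C : Set S | ∃ z ∈ K ∩ g '' Icc a 1, C = cc z} := ⟨g t, ⟨hK', t, ht, rfl⟩, rfl⟩
    rw [h0] at this
    exact this
  | succ n ih =>
    intro a ha haK hn hsd
    have hKc : IsCompact K := (hSCL S K hK).2.2.2.2.1
    by_cases hA : (Icc a 1 ∩ g ⁻¹' K).Nonempty
    swap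
    · rw [← hg1]
      apply joined_seg hg ha
      intro t ht
      exact ⟨hgI t, fun hK' => hA ⟨t, ht, hK'⟩⟩
    have hAc : IsCompact (Icc a 1 ∩ g ⁻¹' K) := isCompact_Icc.inter_right (hKc.isClosed.preimage hg)
    obtain ⟨t₀, ⟨ht₀, ht₀K⟩, ht₀m⟩ := hAc.exists_isLeast hA
    have ht₀K : g t₀ ∈ K := ht₀K
    obtain ⟨p, q, P, hcrs, hzP, hPK, hPcl, hcomp⟩ := hcm1 (g t₀) ⟨ht₀K, hgI t₀⟩
    have hPa := hcrs.1
    have hPJ := hcrs.2.1
    have hPI := hcrs.2.2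
    obtain ⟨-, hPc, -, -, hpq, -, -, -, hPpc, -⟩ := hARB.1 S P p q hPa
    have hpJ : p ∈ J := by
      have : p ∈ P ∩ J := by rw [hPJ]; simp
      exact this.2
    have hqJ : q ∈ J := by
      have : q ∈ P ∩ J := by rw [hPJ]; simp
      exact this.2
    have hgP : ∀ t, g t ∈ P → g t ∈ P \ {p, q} := by
      intro t ht
      refine ⟨ht, ?_⟩
      rintro (h | h)
      · exact not_mem_of_ins (hgI t) (h ▸ hpJ)
      · have h : g t = q := h
        exact not_mem_of_ins (hgI t) (h ▸ hqJ)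
    have hBc : IsCompact (Icc a 1 ∩ g ⁻¹' P) := isCompact_Icc.inter_right (hPc.isClosed.preimage hg)
    obtain ⟨t₁, ⟨ht₁, ht₁P⟩, ht₁m⟩ := hBc.exists_isGreatest ⟨t₀, ht₀, hzP⟩
    have ht₁P : g t₁ ∈ P := ht₁P
    have ht01 : t₀ ≤ t₁ := ht₁m ⟨ht₀, hzP⟩
    have ht11 : t₁ < 1 := by
      rcases lt_or_eq_of_le ht₁.2 with h | h
      · exact h
      · exfalso
        rw [h, hg1] at ht₁P
        exact hy.2 (hPK ht₁P)
    have haft : ∀ t, t₁ < t → t ≤ 1 → g t ∉ P := by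
      intro t h1 h2 h3
      exact absurd (ht₁m ⟨⟨ht₁.1.trans h1.le, h2⟩, h3⟩) (not_le.2 h1)
    -- a short piece after `t₁`
    have hop : IsOpen (g ⁻¹' (K \ (P \ {p, q}))ᶜ) := hPcl.isOpen_compl.preimage hg
    have hmem : t₁ ∈ g ⁻¹' (K \ (P \ {p, q}))ᶜ := fun h => h.2 (hgP t₁ ht₁P)
    obtain ⟨ε, hε, hball⟩ := Metric.isOpen_iff.1 hop t₁ hmem
    set a' : ℝ := min 1 (t₁ + ε / 2) with ha'
    have ha'1 : a' ≤ 1 := min_le_left _ _
    have ha't : t₁ < a' := lt_min ht11 (by linarith)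
    have hshort : ∀ t ∈ Icc t₁ a', g t ∉ K \ (P \ {p, q}) := by
      intro t ht
      apply hball
      rw [Metric.mem_ball, Real.dist_eq, abs_lt]
      have h1 := ht.1
      have h2 := ht.2.trans (min_le_right _ _)
      constructor <;> linarith
    have ha'K : g a' ∉ K := by
      intro h
      exact hshort a' ⟨ha't.le, le_rfl⟩ ⟨h, fun h' => haft a' ha't ha'1 h'.1⟩
    set W₁ : Set S := Ins ω J \ (K \ (P \ {p, q})) with hW₁
    have hWo : IsOpen W₁ := hIo.sdiff hPcl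
    have hj : JoinedIn W₁ (g a) (g a') := by
      refine (joined_seg hg ht₀.1 ?_).trans ((JoinedIn.mono (hPpc.joinedIn _ (hgP t₀ hzP) _ (hgP t₁ ht₁P))
        ?_).trans (joined_seg hg ha't.le ?_))
      · intro t ht
        refine ⟨hgI t, fun h => ?_⟩
        have h1 : t₀ ≤ t := ht₀m ⟨⟨ht.1, ht.2.trans ht₀.2⟩, h.1⟩
        have h2 : t = t₀ := le_antisymm ht.2 h1
        rw [h2] at h
        exact h.2 (hgP t₀ hzP)
      · intro z hz
        exact ⟨hPI hz, fun h => h.2 hz⟩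
      · intro t ht
        exact ⟨hgI t, hshort t ht⟩
    obtain ⟨D₁, D₂, hspl⟩ := (hSCL S J hJ.1.1).1 p hpJ q hqJ hpq
    have hd1J : ∀ (p q : S) (D₁ D₂ : Set S), Spl J p q D₁ D₂ → D₁ ⊆ J := by
      intro p q D₁ D₂ h
      rw [← h.2.2.2]
      exact subset_union_left
    have hT4 : ∀ (p q : S) (D₁ D₂ P : Set S), Spl J p q D₁ D₂ → Crs ω J p q P → ∀ b c : S,
        JoinedIn (D₁ ∪ P)ᶜ b c → (b ∈ Ins ω (D₁ ∪ P) ↔ c ∈ Ins ω (D₁ ∪ P)) := by
      intro p q D₁ D₂ P h1 h2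
      exact (hTWO S ω V hG (D₁ ∪ P) (hTHE S ω V hG J hJ p q D₁ D₂ P h1 h2).1.1).2.2.2.1
    by_cases hss : g a ∈ Ins ω (D₁ ∪ P) ↔ g a' ∈ Ins ω (D₁ ∪ P)
    · have h1 := step hTWO hCLS hTHE hLIN hOPN2 hLCO hARB S ω V hG J hJ p q D₁ D₂ P hspl hcrs W₁ hWo
        sdiff_subset (fun z hz => ⟨hPI hz, fun h => h.2 hz⟩) (g a) (g a') (fun h => haK (hPK h))
        (fun h => ha'K (hPK h)) hj hss
      have h2 : JoinedIn (Ins ω J \ K) (g a) (g a') := by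
        refine h1.mono ?_
        rintro z ⟨⟨hz1, hz2⟩, hz3⟩
        exact ⟨hz1, fun h => hz2 ⟨h, fun h' => hz3 h'.1⟩⟩
      refine h2.trans (ih a' ha'1 ha'K ?_ ?_)
      · have hsub : {C : Set S | ∃ z ∈ K ∩ g '' Icc a' 1, C = cc z} ⊂
            {C : Set S | ∃ z ∈ K ∩ g '' Icc a 1, C = cc z} := by
          refine ⟨?_, fun hcon => ?_⟩
          · rintro C ⟨z, ⟨hz1, t, ht, rfl⟩, rfl⟩
            exact ⟨g t, ⟨hz1, t, ⟨(ht₁.1.trans ha't.le).trans ht.1, ht.2⟩, rfl⟩, rfl⟩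
          · have hin : cc (g t₀) ∈ {C : Set S | ∃ z ∈ K ∩ g '' Icc a 1, C = cc z} :=
              ⟨g t₀, ⟨ht₀K, t₀, ht₀, rfl⟩, rfl⟩
            obtain ⟨z, ⟨hz1, t, ht, rfl⟩, hz2⟩ := hcon hin
            have hz3 : g t ∈ cc (g t) := mem_connectedComponentIn ⟨hz1, hgI t⟩
            rw [← hz2] at hz3
            have hz4 : g t ∈ P \ {p, q} := by
              rw [← hcomp]
              exact hz3
            exact haft t (ha't.trans_le ht.1) ht.2 hz4.1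
        have := Set.ncard_lt_ncard hsub (hfin a)
        omega
      · intro p' q' D₁' D₂' P' h3 h4 h5
        rw [← hsd p' q' D₁' D₂' P' h3 h4 h5]
        refine (hT4 p' q' D₁' D₂' P' h3 h4 _ _ (h2.mono ?_)).symm
        rintro z ⟨hz1, hz2⟩ (hz3 | hz3)
        · exact not_mem_of_ins hz1 (hd1J _ _ _ _ h3 hz3)
        · exact hz2 (h5 hz3)
    · exfalso
      apply hss
      rw [hsd p q D₁ D₂ P hspl hcrs hPK, ← hg1]
      refine (hT4 p q D₁ D₂ P hspl hcrs _ _ (joined_seg hg ha'1 ?_)).symm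
      rintro t ht (h | h)
      · exact not_mem_of_ins (hgI t) (hd1J _ _ _ _ hspl h)
      · exact haft t (ha't.trans_le ht.1) ht.2 h

end Pool.Agent.Helper76.TW
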