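import Pool.Agent.Helper31.TW.St1

set_option autoImplicit false

namespace Pool.Agent.Helper76.TW

open Pool.Agent.Helper31.TW Pool.Agent.Helper22.CS

variable {n : ℕ}

private lemma frm_add (α : Fin n → ℤ) (t u : Fin n → ℕ) : frm α (t + u) = frm α t + frm α u := by
  unfold frm
  rw [← Finset.sum_add_distrib]
  refine Finset.sum_congr rfl (fun i _ => ?_)
  simp only [Pi.add_apply, Nat.cast_add]
  ring

private lemma frm_smul (α : Fin n → ℤ) (k : ℕ) (t : Fin n → ℕ) : frm α (k • t) = k * frm α t := by
  unfold frm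
  rw [Finset.mul_sum]
  refine Finset.sum_congr rfl (fun i _ => ?_)
  simp only [Pi.smul_apply, smul_eq_mul, Nat.cast_mul]
  ring

private lemma frm_single (α : Fin n → ℤ) (c : Fin n) : frm α (Pi.single c 1) = α c := by
  unfold frm
  rw [Finset.sum_eq_single c]
  · simp
  · intro b _ hb
    simp [Pi.single_eq_of_ne hb]
  · intro h
    exact absurd (Finset.mem_univ c) h

private lemma frm_two (α : Fin n → ℤ) (a b : Fin n) (s t : ℕ) :
    frm α (s • Pi.single a 1 + t • Pi.single b 1) = s * α a + t * α b := by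
  rw [frm_add, frm_smul, frm_smul, frm_single, frm_single]

private lemma frm_sum (α : Fin n → ℤ) (S : Finset (Fin n → ℕ)) :
    frm α (∑ p ∈ S, p) = ∑ p ∈ S, frm α p := by
  classical
  induction S using Finset.induction_on with
  | empty => simp [frm]
  | insert p S hp ih => rw [Finset.sum_insert hp, Finset.sum_insert hp, frm_add, ih]

private lemma cut0 (P S : Finset (Fin n → ℕ)) (hS : IsFace P S) (N : ℕ) (v w : Fin n → ℕ)
    (hv : ∃ s : (Fin n → ℕ) → ℕ, v = ∑ p ∈ P, s p • p)
    (hw : ∃ s : (Fin n → ℕ) → ℕ, w = ∑ p ∈ P, s p • p) (h : v + w = N • ∑ p ∈ S, p) :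
    ∃ t : (Fin n → ℕ) → ℕ, v = ∑ p ∈ S, t p • p := by
  obtain ⟨s, hs⟩ := hv
  obtain ⟨s', hs'⟩ := hw
  have h1 : ∑ p ∈ P, (fun p => s p + s' p) p • p = ∑ p ∈ S, (fun _ => N) p • p := by
    simp only [add_smul, Finset.sum_add_distrib]
    rw [← hs, ← hs', h, Finset.smul_sum]
  have h2 := hS.2 _ _ h1
  refine ⟨s, ?_⟩
  rw [hs]
  refine (Finset.sum_subset hS.1 (fun p hp hpS => ?_)).symm
  have h3 : s p + s' p = 0 := h2 p hp hpS
  have h4 : s p = 0 := by omega
  rw [h4, zero_smul]

private lemma cut1 (S : Finset (Fin n → ℕ)) (v : Fin n → ℕ) (c : Fin n) (hc : v c ≠ 0)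
    (h : ∃ t : (Fin n → ℕ) → ℕ, v = ∑ p ∈ S, t p • p) :
    ∃ p ∈ S, p c ≠ 0 ∧ ∀ j, p j ≤ v j := by
  obtain ⟨t, ht⟩ := h
  have hj : ∀ j, v j = ∑ p ∈ S, t p * p j := by
    intro j
    rw [ht, Finset.sum_apply]
    rfl
  rw [hj c] at hc
  obtain ⟨p, hp, hpc⟩ := Finset.exists_ne_zero_of_sum_ne_zero hc
  refine ⟨p, hp, right_ne_zero_of_mul hpc, fun j => ?_⟩
  have h1 : 1 ≤ t p := Nat.one_le_iff_ne_zero.2 (left_ne_zero_of_mul hpc)
  calc p j ≤ t p * p j := Nat.le_mul_of_pos_left _ h1
    _ ≤ ∑ p ∈ S, t p * p j :=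
        Finset.single_le_sum (f := fun p => t p * p j) (fun _ _ => Nat.zero_le _) hp
    _ = v j := (hj j).symm

private lemma cut2 (A : Finset ((Fin n → ℤ) × ℤ)) (x0 v : Fin n → ℕ)
    (hx : ∀ β ∈ A, 0 ≤ frm β.1 x0) (hs : ∀ i, x0 i = 0 → v i = 0)
    (hz : ∀ β ∈ A, frm β.1 x0 = 0 → frm β.1 v = 0) :
    ∃ (N : ℕ) (w : Fin n → ℕ), v + w = N • x0 ∧ (∀ i, x0 i = 0 → w i = 0) ∧
      ∀ β ∈ A, 0 ≤ frm β.1 w := by
  set N : ℕ := ∑ j, v j + ∑ β ∈ A, (frm β.1 v).toNat with hN
  have hvN : ∀ j, v j ≤ N := fun j =>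
    (Finset.single_le_sum (f := v) (fun _ _ => Nat.zero_le _) (Finset.mem_univ j)).trans
      (Nat.le_add_right _ _)
  have hβN : ∀ β ∈ A, frm β.1 v ≤ N := fun β hβ => by
    have h1 : (frm β.1 v).toNat ≤ N :=
      (Finset.single_le_sum (f := fun β : (Fin n → ℤ) × ℤ => (frm β.1 v).toNat)
        (fun _ _ => Nat.zero_le _) hβ).trans (Nat.le_add_left _ _)
    omega
  have hle : ∀ j, v j ≤ N * x0 j := by
    intro j
    by_cases h : x0 j = 0
    · rw [hs j h]; exact Nat.zero_le _
    · exact (hvN j).trans (Nat.le_mul_of_pos_right _ (Nat.pos_of_ne_zero h))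
  refine ⟨N, fun j => N * x0 j - v j, ?_, ?_, ?_⟩
  · funext j
    simp only [Pi.add_apply, Pi.smul_apply, smul_eq_mul]
    exact Nat.add_sub_cancel' (hle j)
  · intro i hi
    simp [hi]
  · intro β hβ
    have h1 : frm β.1 v + frm β.1 (fun j => N * x0 j - v j) = N * frm β.1 x0 := by
      rw [← frm_add, ← frm_smul]
      congr 1
      funext j
      simp only [Pi.add_apply, Pi.smul_apply, smul_eq_mul]
      exact Nat.add_sub_cancel' (hle j)
    rcases (hx β hβ).eq_or_lt with h | h
    · have h2 := hz β hβ h.symm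
      rw [h2, ← h, mul_zero] at h1
      omega
    · have h2 : (N : ℤ) * 1 ≤ N * frm β.1 x0 :=
        mul_le_mul_of_nonneg_left (by omega) (Int.natCast_nonneg N)
      have h3 := hβN β hβ
      linarith

private lemma two_zero {a b j : Fin n} (s t : ℕ) (ha : j ≠ a) (hb : j ≠ b) :
    (s • (Pi.single a 1 : Fin n → ℕ) + t • (Pi.single b 1 : Fin n → ℕ)) j = 0 := by
  simp [Pi.single_eq_of_ne ha, Pi.single_eq_of_ne hb]

private lemma letters_pair {p v : Fin n → ℕ} {a b : Fin n} (hpv : ∀ j, p j ≤ v j)
    (hv : ∀ j, j ≠ a → j ≠ b → v j = 0) (ha : p a ≠ 0) (hb : p b ≠ 0) : letters p = {a, b} := by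
  ext j
  rw [mem_letters, Finset.mem_insert, Finset.mem_singleton]
  constructor
  · intro h
    by_contra h'
    push Not at h'
    have := hpv j
    rw [hv j h'.1 h'.2] at this
    omega
  · rintro (h | h)
    · rw [h]; exact ha
    · rw [h]; exact hb

private lemma letters_one {p v : Fin n → ℕ} {a : Fin n} (hpv : ∀ j, p j ≤ v j)
    (hv : ∀ j, j ≠ a → v j = 0) (ha : p a ≠ 0) : letters p = {a} := by
  ext j
  rw [mem_letters, Finset.mem_singleton]
  constructor
  · intro h
    by_contra h'
    have := hpv j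
    rw [hv j h'] at this
    omega
  · intro h
    rw [h]; exact ha

/-- the value of a form on a vector with two letters -/
private lemma frm_pair (α : Fin n → ℤ) (p : Fin n → ℕ) {a b : Fin n} (hab : a ≠ b)
    (hp : ∀ j, j ≠ a → j ≠ b → p j = 0) : frm α p = α a * p a + α b * p b := by
  unfold frm
  rw [← Finset.sum_subset (Finset.subset_univ {a, b})]
  · rw [Finset.sum_pair hab]
  · intro j _ hj
    simp only [Finset.mem_insert, Finset.mem_singleton, not_or] at hj
    rw [hp j hj.1 hj.2]
    simp

private lemma frm_neg_of (α : Fin n → ℤ) (x : Fin n → ℕ) (i : Fin n) (hi : x i ≠ 0)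
    (h : ∀ j, x j ≠ 0 → α j < 0) : frm α x < 0 := by
  unfold frm
  refine Finset.sum_neg' (fun j _ => ?_) ⟨i, Finset.mem_univ i, ?_⟩
  · by_cases hj : x j = 0
    · rw [hj]; simp
    · exact mul_nonpos_of_nonpos_of_nonneg (h j hj).le (Int.natCast_nonneg _)
  · exact mul_neg_of_neg_of_pos (h i hi) (by exact_mod_cast Nat.pos_of_ne_zero hi)

private lemma frm_pos_of (α : Fin n → ℤ) (x : Fin n → ℕ) (i : Fin n) (hi : x i ≠ 0)
    (h : ∀ j, x j ≠ 0 → 0 < α j) : 0 < frm α x := by
  unfold frm
  refine Finset.sum_pos' (fun j _ => ?_) ⟨i, Finset.mem_univ i, ?_⟩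
  · by_cases hj : x j = 0
    · rw [hj]; simp
    · exact mul_nonneg (h j hj).le (Int.natCast_nonneg _)
  · exact mul_pos (h i hi) (by exact_mod_cast Nat.pos_of_ne_zero hi)

theorem hCUT : StCUT := by
  classical
  intro n I A P H1 H2 S hS hne
  obtain ⟨p1, hp1, hp10⟩ := hne
  set x0 : Fin n → ℕ := ∑ p ∈ S, p with hx0
  have hle : ∀ p ∈ S, ∀ j, p j ≤ x0 j := by
    intro p hp j
    rw [hx0, Finset.sum_apply]
    exact Finset.single_le_sum (f := fun p : Fin n → ℕ => p j) (fun _ _ => Nat.zero_le _) hp
  have hMP : ∀ p ∈ P, (∀ i, i ∉ I → p i = 0) ∧ ∀ q ∈ A, 0 ≤ frm q.1 p := by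
    intro p hp
    refine (H2 p).2 ⟨fun q => if q = p then 1 else 0, ?_⟩
    rw [Finset.sum_eq_single p]
    · simp
    · intro q _ hq
      simp [hq]
    · intro h
      exact absurd hp h
  have hxI : ∀ i, i ∉ I → x0 i = 0 := by
    intro i hi
    rw [hx0, Finset.sum_apply]
    exact Finset.sum_eq_zero (fun p hp => (hMP p (hS.1 hp)).1 i hi)
  have hxA : ∀ q ∈ A, 0 ≤ frm q.1 x0 := by
    intro q hq
    rw [hx0, frm_sum]
    exact Finset.sum_nonneg (fun p hp => (hMP p (hS.1 hp)).2 q hq)
  have hInI : ∀ i, x0 i ≠ 0 → i ∈ I := fun i hi => by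
    by_contra h
    exact hi (hxI i h)
  obtain ⟨i0, hi0⟩ : ∃ i, x0 i ≠ 0 := by
    obtain ⟨i, hi⟩ := Function.ne_iff.1 hp10
    refine ⟨i, fun h => hi ?_⟩
    have := hle p1 hp1 i
    rw [h] at this
    exact Nat.le_zero.1 this
  have hsup : ∀ v : Fin n → ℕ, (∀ i, x0 i = 0 → v i = 0) → ∀ i, i ∉ I → v i = 0 :=
    fun v hv i hi => hv i (hxI i hi)
  have key : ∀ v : Fin n → ℕ, (∀ i, x0 i = 0 → v i = 0) → (∀ β ∈ A, 0 ≤ frm β.1 v) →
      (∀ β ∈ A, frm β.1 x0 = 0 → frm β.1 v = 0) →
      ∃ t : (Fin n → ℕ) → ℕ, v = ∑ p ∈ S, t p • p := by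
    intro v hv hv1 hv2
    obtain ⟨N, w, hw1, hw2, hw3⟩ := cut2 A x0 v hxA hv hv2
    exact cut0 P S hS N v w ((H2 v).1 ⟨hsup v hv, hv1⟩) ((H2 w).1 ⟨hsup w hw2, hw3⟩) hw1
  have hsingle : ∀ c, x0 c ≠ 0 → ∀ i, x0 i = 0 → (Pi.single c 1 : Fin n → ℕ) i = 0 := by
    intro c hc i hi
    apply Pi.single_eq_of_ne
    rintro rfl
    exact hc hi
  have htwo : ∀ a b, x0 a ≠ 0 → x0 b ≠ 0 → ∀ (s t : ℕ) (i : Fin n), x0 i = 0 →
      (s • (Pi.single a 1 : Fin n → ℕ) + t • (Pi.single b 1 : Fin n → ℕ)) i = 0 := by
    intro a b ha hb s t i hi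
    apply two_zero
    · rintro rfl; exact ha hi
    · rintro rfl; exact hb hi
  -- one letter
  have hone : ∀ c, x0 c ≠ 0 → (∀ β ∈ A, 0 ≤ β.1 c) → (∀ β ∈ A, frm β.1 x0 = 0 → β.1 c = 0) →
      Splits S := by
    intro c hc h1 h2
    obtain ⟨p, hp, hpc, hpv⟩ := cut1 S (Pi.single c 1) c (by simp) (key _ (hsingle c hc)
      (fun β hβ => by rw [frm_single]; exact h1 β hβ)
      (fun β hβ hβ0 => by rw [frm_single]; exact h2 β hβ hβ0))
    exact Or.inl ⟨p, hp, c, letters_one hpv (fun j hj => Pi.single_eq_of_ne hj _) hpc⟩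
  by_cases hcase : ∃ α ∈ A, frm α.1 x0 = 0 ∧ ∃ i, x0 i ≠ 0 ∧ α.1 i ≠ 0
  · -- case 1
    obtain ⟨α, hα, hα0, i, hi, hαi⟩ := hcase
    have L1 : ∀ β ∈ A, β ≠ α → ∀ w : Fin n → ℕ, (∀ j, x0 j = 0 → w j = 0) → 1 ≤ w i →
        frm α.1 w = 0 → frm β.1 w < 0 → False := by
      intro β hβ hβα w hw hwi hαw hβw
      rcases lt_or_gt_of_ne hαi with h | h
      · set N : ℕ := (β.1 i).toNat + 1 with hN
        refine H1 β hβ α hα hβα (N • w + Pi.single i 1) (fun j hj => ?_) ⟨?_, ?_⟩
        · have h1 := hw j (hxI j hj)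
          have h2 := hsingle i hi j (hxI j hj)
          simp only [Pi.add_apply, Pi.smul_apply, h1, h2]
          rfl
        · rw [frm_add, frm_smul, frm_single]
          have h3 : (N : ℤ) * frm β.1 w ≤ N * (-1) :=
            mul_le_mul_of_nonneg_left (by omega) (Int.natCast_nonneg N)
          have h4 : β.1 i < N := by rw [hN]; push_cast; omega
          linarith
        · rw [frm_add, frm_smul, frm_single, hαw]
          linarith
      · set N : ℕ := (-(β.1 i)).toNat + 1 with hN
        have hNi : ∀ j, (Pi.single i 1 : Fin n → ℕ) j ≤ (N • w) j := by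
          intro j
          by_cases hj : j = i
          · subst hj
            simp only [Pi.single_eq_same, Pi.smul_apply, smul_eq_mul]
            exact Nat.one_le_iff_ne_zero.2 (Nat.mul_ne_zero (by omega) (by omega))
          · rw [Pi.single_eq_of_ne hj]; exact Nat.zero_le _
        have hsum : (fun j => (N • w) j - (Pi.single i 1 : Fin n → ℕ) j) + Pi.single i 1 =
            N • w := by
          funext j
          simp only [Pi.add_apply]
          exact Nat.sub_add_cancel (hNi j)
        have hf : ∀ γ : Fin n → ℤ, frm γ (fun j => (N • w) j - (Pi.single i 1 : Fin n → ℕ) j) =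
            N * frm γ w - γ i := by
          intro γ
          have h1 := frm_add γ (fun j => (N • w) j - (Pi.single i 1 : Fin n → ℕ) j)
            (Pi.single i 1)
          rw [hsum, frm_smul, frm_single] at h1
          linarith
        refine H1 β hβ α hα hβα (fun j => (N • w) j - (Pi.single i 1 : Fin n → ℕ) j)
          (fun j hj => ?_) ⟨?_, ?_⟩
        · have h1 := hw j (hxI j hj)
          simp only [Pi.smul_apply, h1]
          simp
        · rw [hf]
          have h3 : (N : ℤ) * frm β.1 w ≤ N * (-1) :=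
            mul_le_mul_of_nonneg_left (by omega) (Int.natCast_nonneg N)
          have h4 : -(β.1 i) < N := by rw [hN]; push_cast; omega
          linarith
        · rw [hf, hαw]
          linarith
    have hall : ∀ v : Fin n → ℕ, (∀ j, x0 j = 0 → v j = 0) → frm α.1 v = 0 →
        ∃ t : (Fin n → ℕ) → ℕ, v = ∑ p ∈ S, t p • p := by
      intro v hv hαv
      have hge : ∀ β ∈ A, 0 ≤ frm β.1 v := by
        intro β hβ
        by_cases hβα : β = α
        · rw [hβα, hαv]
        · by_contra hlt
          push Not at hlt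
          refine L1 β hβ hβα ((frm β.1 x0).toNat.succ • v + x0) (fun j hj => ?_) ?_ ?_ ?_
          · simp only [Pi.add_apply, Pi.smul_apply, hv j hj, hj]
            simp
          · have : x0 i ≤ ((frm β.1 x0).toNat.succ • v + x0) i := by
              simp only [Pi.add_apply]
              exact Nat.le_add_left _ _
            exact (Nat.one_le_iff_ne_zero.2 hi).trans this
          · rw [frm_add, frm_smul, hαv, hα0]; simp
          · rw [frm_add, frm_smul]
            have h5 := hxA β hβ
            have h6 : (((frm β.1 x0).toNat.succ : ℕ) : ℤ) = frm β.1 x0 + 1 := by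
              push_cast; omega
            rw [h6]
            nlinarith
      refine key v hv hge (fun β hβ hβ0 => ?_)
      by_cases hβα : β = α
      · rw [hβα, hαv]
      · by_contra hne'
        have hpos : 0 < frm β.1 v := lt_of_le_of_ne (hge β hβ) (Ne.symm hne')
        set N : ℕ := ∑ j, v j + 1 with hN
        have hvN : ∀ j, v j + 1 ≤ N := fun j =>
          Nat.succ_le_succ (Finset.single_le_sum (f := v) (fun _ _ => Nat.zero_le _)
            (Finset.mem_univ j))
        have hleN : ∀ j, v j ≤ (N • x0) j := by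
          intro j
          simp only [Pi.smul_apply, smul_eq_mul]
          by_cases h : x0 j = 0
          · rw [hv j h]; exact Nat.zero_le _
          · exact (Nat.le_of_succ_le (hvN j)).trans
              (Nat.le_mul_of_pos_right _ (Nat.pos_of_ne_zero h))
        have hf : ∀ γ : Fin n → ℤ, frm γ (fun j => (N • x0) j - v j) =
            N * frm γ x0 - frm γ v := by
          intro γ
          have h1 := frm_add γ (fun j => (N • x0) j - v j) v
          have h2 : (fun j => (N • x0) j - v j) + v = N • x0 := by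
            funext j
            simp only [Pi.add_apply]
            exact Nat.sub_add_cancel (hleN j)
          rw [h2, frm_smul] at h1
          linarith
        refine L1 β hβ hβα (fun j => (N • x0) j - v j) (fun j hj => ?_) ?_ ?_ ?_
        · simp only [Pi.smul_apply, hj]
          simp
        · have h1 : N ≤ (N • x0) i := by
            simp only [Pi.smul_apply, smul_eq_mul]
            exact Nat.le_mul_of_pos_right _ (Nat.pos_of_ne_zero hi)
          have h2 := hvN i
          show 1 ≤ (N • x0) i - v i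
          omega
        · rw [hf, hα0, hαv]; simp
        · rw [hf, hβ0]
          linarith
    by_cases hz : ∃ c, x0 c ≠ 0 ∧ α.1 c = 0
    · obtain ⟨c, hc, hαc⟩ := hz
      obtain ⟨p, hp, hpc, hpv⟩ := cut1 S (Pi.single c 1) c (by simp) (hall _ (hsingle c hc)
        (by rw [frm_single]; exact hαc))
      exact Or.inl ⟨p, hp, c, letters_one hpv (fun j hj => Pi.single_eq_of_ne hj _) hpc⟩
    · push Not at hz
      -- elements of `S` have value 0
      have hαS : ∀ p ∈ S, frm α.1 p = 0 := by
        have h1 : ∑ p ∈ S, frm α.1 p = 0 := by rw [← frm_sum]; exact hα0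
        exact (Finset.sum_eq_zero_iff_of_nonneg (fun p hp => (hMP p (hS.1 hp)).2 α hα)).1 h1
      refine Or.inr ⟨Finset.univ.filter (fun c => x0 c ≠ 0 ∧ 0 < α.1 c),
        Finset.univ.filter (fun c => x0 c ≠ 0 ∧ α.1 c < 0), ?_, ?_, ?_, ?_, ?_⟩
      · by_contra hemp
        rw [Finset.not_nonempty_iff_eq_empty, Finset.filter_eq_empty_iff] at hemp
        have h1 := frm_neg_of α.1 x0 i0 hi0 (fun j hj => by
          have h2 := hemp (Finset.mem_univ j)
          push Not at h2
          exact lt_of_le_of_ne (h2 hj) (hz j hj))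
        omega
      · by_contra hemp
        rw [Finset.not_nonempty_iff_eq_empty, Finset.filter_eq_empty_iff] at hemp
        have h1 := frm_pos_of α.1 x0 i0 hi0 (fun j hj => by
          have h2 := hemp (Finset.mem_univ j)
          push Not at h2
          exact lt_of_le_of_ne (h2 hj) (Ne.symm (hz j hj)))
        omega
      · rw [Finset.disjoint_left]
        intro c hc hc'
        rw [Finset.mem_filter] at hc hc'
        have h1 := hc.2.2
        have h2 := hc'.2.2
        omega
      · intro p hp c hc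
        rw [mem_letters] at hc
        have hxc : x0 c ≠ 0 := fun h => hc (Nat.le_zero.1 (by rw [← h]; exact hle p hp c))
        rw [Finset.mem_union, Finset.mem_filter, Finset.mem_filter]
        rcases lt_or_gt_of_ne (hz c hxc) with h | h
        · exact Or.inr ⟨Finset.mem_univ c, hxc, h⟩
        · exact Or.inl ⟨Finset.mem_univ c, hxc, h⟩
      · intro a ha b hb
        rw [Finset.mem_filter] at ha hb
        obtain ⟨-, hxa, hαa⟩ := ha
        obtain ⟨-, hxb, hαb⟩ := hb
        have hab : a ≠ b := by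
          rintro rfl
          omega
        obtain ⟨p, hp, hpa, hpv⟩ := cut1 S ((-(α.1 b)).toNat • Pi.single a 1 +
            (α.1 a).toNat • Pi.single b 1) a (by
            simp only [Pi.add_apply, Pi.smul_apply, Pi.single_eq_same, Pi.single_eq_of_ne hab,
              smul_eq_mul, mul_one, mul_zero, add_zero]
            omega) (hall _ (htwo a b hxa hxb _ _) (by
              rw [frm_two]
              have h1 : (((-(α.1 b)).toNat : ℕ) : ℤ) = -(α.1 b) := by omega
              have h2 : (((α.1 a).toNat : ℕ) : ℤ) = α.1 a := by omega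
              rw [h1, h2]; ring))
        refine ⟨p, hp, letters_pair hpv (fun j hja hjb => two_zero _ _ hja hjb) hpa ?_⟩
        intro hpb
        have h1 := hαS p hp
        rw [frm_pair α.1 p hab (fun j hja hjb => Nat.le_zero.1
          (by have := hpv j; rw [two_zero _ _ hja hjb] at this; exact this)), hpb] at h1
        have h2 : 0 < α.1 a * (p a : ℤ) :=
          mul_pos hαa (by exact_mod_cast Nat.pos_of_ne_zero hpa)
        simp only [Nat.cast_zero, mul_zero, add_zero] at h1
        omega
  · -- case 2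
    push Not at hcase
    have hall : ∀ v : Fin n → ℕ, (∀ j, x0 j = 0 → v j = 0) → (∀ β ∈ A, 0 ≤ frm β.1 v) →
        ∃ t : (Fin n → ℕ) → ℕ, v = ∑ p ∈ S, t p • p := by
      intro v hv hv1
      refine key v hv hv1 (fun β hβ hβ0 => ?_)
      unfold frm
      refine Finset.sum_eq_zero (fun j _ => ?_)
      by_cases hj : x0 j = 0
      · rw [hv j hj]; simp
      · rw [hcase β hβ hβ0 j hj]; simp
    by_cases hz : ∃ c, x0 c ≠ 0 ∧ ∀ β ∈ A, 0 ≤ β.1 c
    · obtain ⟨c, hc, hβc⟩ := hz
      exact hone c hc hβc (fun β hβ hβ0 => hcase β hβ hβ0 c hc)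
    · push Not at hz
      have huniq : ∀ c, x0 c ≠ 0 → ∀ β ∈ A, ∀ γ ∈ A, β.1 c < 0 → γ.1 c < 0 → β = γ := by
        intro c hc β hβ γ hγ h1 h2
        by_contra hne'
        refine H1 β hβ γ hγ hne' (Pi.single c 1)
          (fun j hj => hsingle c hc j (hxI j hj)) ⟨?_, ?_⟩
        · rw [frm_single]; exact h1
        · rw [frm_single]; exact h2
      obtain ⟨α, hα, hαc⟩ := hz i0 hi0
      refine Or.inr ⟨Finset.univ.filter (fun c => x0 c ≠ 0 ∧ α.1 c < 0),
        Finset.univ.filter (fun c => x0 c ≠ 0 ∧ 0 ≤ α.1 c), ⟨i0, ?_⟩, ?_, ?_, ?_, ?_⟩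
      · rw [Finset.mem_filter]
        exact ⟨Finset.mem_univ _, hi0, hαc⟩
      · by_contra hemp
        rw [Finset.not_nonempty_iff_eq_empty, Finset.filter_eq_empty_iff] at hemp
        have h1 := frm_neg_of α.1 x0 i0 hi0 (fun j hj => by
          have h2 := hemp (Finset.mem_univ j)
          push Not at h2
          exact h2 hj)
        have h3 := hxA α hα
        omega
      · rw [Finset.disjoint_left]
        intro c hc hc'
        rw [Finset.mem_filter] at hc hc'
        have h1 := hc.2.2
        have h2 := hc'.2.2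
        omega
      · intro p hp c hc
        rw [mem_letters] at hc
        have hxc : x0 c ≠ 0 := fun h => hc (Nat.le_zero.1 (by rw [← h]; exact hle p hp c))
        rw [Finset.mem_union, Finset.mem_filter, Finset.mem_filter]
        rcases lt_or_ge (α.1 c) 0 with h | h
        · exact Or.inl ⟨Finset.mem_univ c, hxc, h⟩
        · exact Or.inr ⟨Finset.mem_univ c, hxc, h⟩
      · intro a ha b hb
        rw [Finset.mem_filter] at ha hb
        obtain ⟨-, hxa, hαa⟩ := ha
        obtain ⟨-, hxb, hαb⟩ := hb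
        have hab : a ≠ b := by
          rintro rfl
          omega
        obtain ⟨β, hβ, hβb⟩ := hz b hxb
        have hβα : β ≠ α := by
          rintro rfl
          omega
        have hβa : 0 ≤ β.1 a := by
          by_contra h
          push Not at h
          exact hβα (huniq a hxa β hβ α hα h hαa)
        -- the inequality
        have hD : α.1 a * β.1 b ≤ α.1 b * β.1 a := by
          by_contra h
          push Not at h
          refine H1 β hβ α hα hβα ((-(β.1 b) + α.1 b).toNat • Pi.single a 1 +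
            (β.1 a - α.1 a).toNat • Pi.single b 1)
            (fun j hj => htwo a b hxa hxb _ _ j (hxI j hj)) ⟨?_, ?_⟩
          · rw [frm_two]
            have h1 : (((-(β.1 b) + α.1 b).toNat : ℕ) : ℤ) = -(β.1 b) + α.1 b := by omega
            have h2 : (((β.1 a - α.1 a).toNat : ℕ) : ℤ) = β.1 a - α.1 a := by omega
            rw [h1, h2]; linarith
          · rw [frm_two]
            have h1 : (((-(β.1 b) + α.1 b).toNat : ℕ) : ℤ) = -(β.1 b) + α.1 b := by omega
            have h2 : (((β.1 a - α.1 a).toNat : ℕ) : ℤ) = β.1 a - α.1 a := by omega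
            rw [h1, h2]; linarith
        obtain ⟨p, hp, hpb, hpv⟩ := cut1 S ((α.1 b).toNat • Pi.single a 1 +
            (-(α.1 a)).toNat • Pi.single b 1) b (by
            simp only [Pi.add_apply, Pi.smul_apply, Pi.single_eq_same,
              Pi.single_eq_of_ne hab.symm, smul_eq_mul, mul_one, mul_zero, zero_add]
            omega) (hall _ (htwo a b hxa hxb _ _) (by
              intro γ hγ
              rw [frm_two]
              have h1 : (((α.1 b).toNat : ℕ) : ℤ) = α.1 b := by omega
              have h2 : (((-(α.1 a)).toNat : ℕ) : ℤ) = -(α.1 a) := by omega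
              rw [h1, h2]
              by_cases hγα : γ = α
              · rw [hγα]; linarith
              · have hγa : 0 ≤ γ.1 a := by
                  by_contra h
                  push Not at h
                  exact hγα (huniq a hxa γ hγ α hα h hαa)
                by_cases hγβ : γ = β
                · rw [hγβ]; linarith
                · have hγb : 0 ≤ γ.1 b := by
                    by_contra h
                    push Not at h
                    exact hγβ (huniq b hxb γ hγ β hβ h hβb)
                  have h3 := mul_nonneg hαb hγa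
                  have h4 : 0 ≤ -(α.1 a) * γ.1 b := mul_nonneg (by omega) hγb
                  linarith))
        refine ⟨p, hp, letters_pair hpv (fun j hja hjb => two_zero _ _ hja hjb) ?_ hpb⟩
        intro hpa
        have h1 := (hMP p (hS.1 hp)).2 β hβ
        rw [frm_pair β.1 p hab (fun j hja hjb => Nat.le_zero.1
          (by have := hpv j; rw [two_zero _ _ hja hjb] at this; exact this)), hpa] at h1
        have h2 : β.1 b * (p b : ℤ) < 0 :=
          mul_neg_of_neg_of_pos hβb (by exact_mod_cast Nat.pos_of_ne_zero hpb)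
        simp only [Nat.cast_zero, mul_zero, zero_add] at h1
        omega

end Pool.Agent.Helper76.TW
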